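import Pool.Agent.L5helper42.Sym.ACC

/-!
# MP_3586ff_lc: circuits with MOD gates for majority must break symmetry

Let `m ≥ 2` have `r` distinct prime factors. We consider circuits of arbitrary depth with AND, OR,
NOT and MOD `m` gates of unbounded fan-in. We show that a circuit with `s` gates which computes the
majority of `n` bits is not invariant under the permutations of any set of more than
`K (1 + log s) ^ r` inputs. The same holds for the MOD `q` function if `q` has a prime factor which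
does not divide `m`.

Idea of the proof: every gate of an invariant circuit is fixed by all even permutations outside a
set of `O (log s)` inputs, the support of the gate. If the number of ones (in the symmetric set of
inputs) changes by a multiple of a large enough power of a prime `p`, then a product of disjoint
cycles of `p`-power length acts on the children of a gate; the children whose support meets the
cycles lie in orbits whose length is divisible by `p ^ e`, and hence do not matter.
-/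

set_option autoImplicit false

open Equiv Finset

namespace Pool.Agent.Results.MP_3586ff_lc.BrokenSymmetry

open Pool.Agent.L5helper42.Sym

lemma inv_of {n s : ℕ} {C : Circ (Fin n) s} {D : Finset (Fin n)}
    (h : ∀ π : Perm (Fin n), (∀ i, i ∉ D → π i = i) → ∃ σ : Perm (Fin s), C.IsAut π σ) :
    C.Inv (rho D) := fun π => h _ fun _ hi => Perm.ofSubtype_apply_of_not_mem π hi

lemma log_le {s : ℕ} (hs : 1 ≤ s) : ((Nat.log 2 (s ^ 2) : ℕ) : ℝ) ≤ 2 * Real.logb 2 s := by
  have h1 : 2 ^ Nat.log 2 (s ^ 2) ≤ s ^ 2 := Nat.pow_log_le_self 2 (by positivity)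
  have h2 : ((2 : ℝ) ^ Nat.log 2 (s ^ 2)) ≤ (s : ℝ) ^ 2 := by exact_mod_cast h1
  have hs0 : (0 : ℝ) < s := by exact_mod_cast hs
  have h3 := Real.logb_le_logb_of_le (b := 2) (by norm_num) (by positivity) h2
  rw [Real.logb_pow, Real.logb_self_eq_one (by norm_num), mul_one, Real.logb_pow] at h3
  exact_mod_cast h3

lemma modulus_le {m k : ℕ} (hk : 1 ≤ k) (hm : 1 ≤ m) :
    modulus m k ≤ m ^ 2 * k ^ m.primeFactors.card := by
  unfold modulus
  have h1 : ∏ p ∈ m.primeFactors, p ^ (1 + Nat.log p k) ≤ ∏ p ∈ m.primeFactors, (p * k) := by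
    refine Finset.prod_le_prod' fun p _ => ?_
    rw [pow_add, pow_one]
    exact Nat.mul_le_mul_left _ (Nat.pow_log_le_self p (by omega))
  have h2 : ∏ p ∈ m.primeFactors, (p * k) = (∏ p ∈ m.primeFactors, p) * k ^ m.primeFactors.card := by
    rw [Finset.prod_mul_distrib, Finset.prod_const]
  have h3 : ∏ p ∈ m.primeFactors, p ≤ m :=
    Nat.le_of_dvd (by omega) (Nat.prod_primeFactors_dvd m)
  calc m * ∏ p ∈ m.primeFactors, p ^ (1 + Nat.log p k)
      ≤ m * ((∏ p ∈ m.primeFactors, p) * k ^ m.primeFactors.card) := by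
        rw [← h2]; exact Nat.mul_le_mul_left _ h1
    _ ≤ m * (m * k ^ m.primeFactors.card) :=
        Nat.mul_le_mul_left _ (Nat.mul_le_mul_right _ h3)
    _ = m ^ 2 * k ^ m.primeFactors.card := by ring

lemma primes_modulus {m k p : ℕ} (hp : p.Prime) (h : p ∣ modulus m k) : p ∣ m := by
  unfold modulus at h
  rcases (Nat.Prime.dvd_mul hp).1 h with h | h
  · exact h
  · obtain ⟨q, hq, hpq⟩ := (Prime.dvd_finsetProd_iff hp.prime _).1 h
    have h1 := (Nat.prime_dvd_prime_iff_eq hp (Nat.prime_of_mem_primeFactors hq)).1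
      (hp.dvd_of_dvd_pow hpq)
    rw [h1]
    exact Nat.dvd_of_mem_primeFactors hq

/-- A string with prescribed numbers of ones in `D` and outside `D`. -/
lemma exists_string {n : ℕ} (D : Finset (Fin n)) {b : ℕ}
    (hb : b ≤ Dᶜ.card) : ∃ T : Finset (Fin n), T ⊆ Dᶜ ∧ T.card = b ∧
      ∀ a ≤ D.card, ∃ x : Fin n → Bool, W D x = a ∧ W univ x = a + b ∧
        ∀ i, i ∉ D → x i = decide (i ∈ T) := by
  obtain ⟨T, hT, hTc⟩ := exists_subset_card_eq hb
  refine ⟨T, hT, hTc, fun a ha => ?_⟩
  obtain ⟨S, hS, hSc⟩ := exists_subset_card_eq ha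
  refine ⟨fun i => decide (i ∈ S ∪ T), ?_, ?_, ?_⟩
  · unfold W
    rw [← hSc]
    congr 1
    ext i
    simp only [mem_filter, decide_eq_true_eq, mem_union]
    constructor
    · rintro ⟨h1, h2 | h2⟩
      · exact h2
      · exact absurd h1 (mem_compl.1 (hT h2))
    · intro h; exact ⟨hS h, Or.inl h⟩
  · unfold W
    have : (univ.filter fun i => decide (i ∈ S ∪ T) = true) = S ∪ T := by
      ext i; simp
    rw [this, card_union_of_disjoint, hSc, hTc]
    exact Finset.disjoint_left.2 fun i hi hi' => mem_compl.1 (hT hi') (hS hi)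
  · intro i hi
    have : i ∉ S := fun h => hi (hS h)
    simp [this]

theorem result (m : ℕ) (hm : 2 ≤ m) : ∃ K : ℝ, 0 < K ∧
    ∀ (n s : ℕ) (C : Circ (Fin n) s) (D : Finset (Fin n)),
    (∀ g, IsACCGate m (∑ u, C.wires g u) (C.fn g)) →
    (∀ π : Perm (Fin n), (∀ i, i ∉ D → π i = i) → ∃ σ : Perm (Fin s), C.IsAut π σ) →
    (∃ M k : ℕ, 0 < M ∧ (∀ p, p.Prime → p ∣ M → p ∣ m) ∧
      ((M : ℝ) ≤ K * (1 + Real.logb 2 s) ^ m.primeFactors.card) ∧
      ((k : ℝ) ≤ K * (1 + Real.logb 2 s)) ∧
      ∀ x y : Fin n → Bool, (∀ i, i ∉ D → x i = y i) →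
        k ≤ W D x → W D x + k ≤ D.card → k ≤ W D y → W D y + k ≤ D.card →
        W D x ≡ W D y [MOD M] → C.val x C.out = C.val y C.out) ∧
    ((∀ x, C.val x C.out = decide (n ≤ 2 * W univ x)) →
      (D.card : ℝ) ≤ K * (1 + Real.logb 2 s) ^ m.primeFactors.card) ∧
    (∀ q : ℕ, 0 < q → (∃ p, p.Prime ∧ p ∣ q ∧ ¬ p ∣ m) →
      (∀ x, C.val x C.out = decide (q ∣ W univ x)) →
      (D.card : ℝ) ≤ K * (1 + Real.logb 2 s) ^ m.primeFactors.card + q) := by
  set r := m.primeFactors.card with hr
  have hr1 : 1 ≤ r := Finset.card_pos.2 (Nat.nonempty_primeFactors.2 (by omega))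
  set K : ℝ := 2 * m ^ 2 * 6 ^ r + 28 with hK
  have hmpos : (0 : ℝ) < m := by exact_mod_cast (show 0 < m by omega)
  refine ⟨K, by positivity, fun n s C D hC hinv => ?_⟩
  have hs : 1 ≤ s := by
    rcases Nat.eq_zero_or_pos s with h | h
    · subst h; exact (C.out.elim0)
    · exact h
  set L : ℝ := 1 + Real.logb 2 s with hL
  have hlog0 : 0 ≤ Real.logb 2 s := Real.logb_nonneg (by norm_num) (by exact_mod_cast hs)
  have hL1 : 1 ≤ L := by rw [hL]; linarith
  have hLr : L ≤ L ^ r := le_self_pow₀ hL1 (by omega)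
  set k : ℕ := max 1 (3 * Nat.log 2 (s ^ 2)) with hk
  have hkL : (k : ℝ) ≤ 6 * L := by
    rw [hk, Nat.cast_max]
    refine max_le ?_ ?_
    · push_cast; linarith
    · push_cast
      have := log_le hs
      rw [hL]; linarith
  have hk1 : 1 ≤ k := le_max_left _ _
  have hks : 3 * Nat.log 2 (s ^ 2) ≤ k := le_max_right _ _
  set M := modulus m k with hM
  have hMpos : 0 < M := modulus_pos (by omega) k
  have hML : (M : ℝ) ≤ m ^ 2 * 6 ^ r * L ^ r := by
    have h1 : (M : ℝ) ≤ (m : ℝ) ^ 2 * (k : ℝ) ^ r := by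
      exact_mod_cast modulus_le hk1 (by omega)
    refine h1.trans ?_
    rw [mul_assoc, ← mul_pow]
    gcongr
  have hmain : ∀ x y : Fin n → Bool, (∀ i, i ∉ D → x i = y i) →
        2 * k ≤ W D x → W D x + 2 * k ≤ D.card → 2 * k ≤ W D y → W D y + 2 * k ≤ D.card →
        W D x ≡ W D y [MOD M] → C.val x C.out = C.val y C.out := by
    intro x y hoff h1 h2 h3 h4 h5
    exact out_eq C (by omega) hk1 hks hC (inv_of hinv) hoff h1 h2 h3 h4 h5
  refine ⟨⟨M, 2 * k, hMpos, ?_, ?_, ?_, hmain⟩, ?_, ?_⟩
  · intro p hp hpM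
    exact primes_modulus hp hpM
  · refine hML.trans ?_
    have : (0 : ℝ) ≤ L ^ r := by positivity
    rw [hK]
    nlinarith [show (0 : ℝ) ≤ m ^ 2 * 6 ^ r by positivity]
  · push_cast
    have : (0 : ℝ) ≤ m ^ 2 * 6 ^ r := by positivity
    rw [hK]
    nlinarith
  · intro hmaj
    by_contra hcon
    push Not at hcon
    have hbig : 2 * M + 4 * k + 4 ≤ D.card := by
      have : ((2 * M + 4 * k + 4 : ℕ) : ℝ) ≤ D.card := by
        push_cast
        refine le_trans ?_ hcon.le
        rw [hK]
        nlinarith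
      exact_mod_cast this
    have hDn : D.card ≤ n := by
      have := card_le_univ D
      simpa using this
    have hcc : Dᶜ.card = n - D.card := by rw [card_compl, Fintype.card_fin]
    obtain ⟨T, -, -, hT⟩ := exists_string D (b := (n - D.card) / 2)
      (by rw [hcc]; exact Nat.div_le_self _ _)
    set z := (n - D.card) / 2 with hz
    set t := (n + 1) / 2 - z with ht
    obtain ⟨x, hx1, hx2, hx3⟩ := hT (t - 1) (by omega)
    obtain ⟨y, hy1, hy2, hy3⟩ := hT (t - 1 + M) (by omega)
    have hxy := hmain x y (fun i hi => (hx3 i hi).trans (hy3 i hi).symm)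
      (by rw [hx1]; omega) (by rw [hx1]; omega) (by rw [hy1]; omega) (by rw [hy1]; omega)
      (by rw [hx1, hy1]; exact (Nat.modEq_iff_dvd' (by omega)).2 (by
        rw [Nat.add_sub_cancel_left]))
    rw [hmaj x, hmaj y, hx2, hy2] at hxy
    have ha : ¬ n ≤ 2 * (t - 1 + z) := by omega
    have hb : n ≤ 2 * (t - 1 + M + z) := by omega
    simp only [ha, hb, decide_true, decide_false] at hxy
    exact absurd hxy (by decide)
  · intro q hq0 hq hmod
    obtain ⟨p, hp, hpq, hpm⟩ := hq
    by_contra hcon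
    push Not at hcon
    have hbig : M + 4 * k + q + 1 ≤ D.card := by
      have : ((M + 4 * k + q + 1 : ℕ) : ℝ) ≤ D.card := by
        push_cast
        refine le_trans ?_ hcon.le
        rw [hK]
        nlinarith
      exact_mod_cast this
    obtain ⟨T, -, -, hT⟩ := exists_string D (b := 0) (Nat.zero_le _)
    set a := q * (2 * k / q + 1) with ha
    have ha1 : 2 * k ≤ a := by
      have := Nat.lt_mul_div_succ (2 * k) hq0
      omega
    have ha2 : a ≤ 2 * k + q := by
      have := Nat.mul_div_le (2 * k) q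
      rw [ha, mul_add, mul_one]
      omega
    obtain ⟨x, hx1, hx2, hx3⟩ := hT a (by omega)
    obtain ⟨y, hy1, hy2, hy3⟩ := hT (a + M) (by omega)
    have hxy := hmain x y (fun i hi => (hx3 i hi).trans (hy3 i hi).symm)
      (by rw [hx1]; omega) (by rw [hx1]; omega) (by rw [hy1]; omega) (by rw [hy1]; omega)
      (by rw [hx1, hy1]; exact (Nat.modEq_iff_dvd' (by omega)).2 (by
        rw [Nat.add_sub_cancel_left]))
    rw [hmod x, hmod y, hx2, hy2, add_zero, add_zero] at hxy
    have h1 : q ∣ a := Dvd.intro _ rfl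
    have h2 : ¬ q ∣ a + M := by
      intro h
      have h3 : q ∣ M := (Nat.dvd_add_right h1).1 h
      exact hpm (primes_modulus hp (hpq.trans h3))
    simp only [h1, h2, decide_true, decide_false] at hxy
    exact absurd hxy (by decide)

end Pool.Agent.Results.MP_3586ff_lc.BrokenSymmetry
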