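import Pool.Agent.L5helper12.MDFinal

/-!
# Majority and circuits with few composite modular gates in arbitrary positions

Circuits of bounded depth and polynomial size with AND, OR, NOT and MOD `p` gates, `p` prime, do not
compute the majority (Razborov, Smolensky); for MOD `6` gates this is open. We show that the majority
is not computed either if some `n ^ δ` further gates of composite modulus are allowed: arbitrary
functions of weighted sums with weights in a finite abelian group, nested in an arbitrary way, which
may be applied to everything that does not depend on MOD `p` gates. The exponent `δ` depends on the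
depth and on the size of the circuit.

The circuits (`Pool.Agent.L5helper12.MD.Mixed p n A`, file `Pool/Agent/L5helper12/MDStage.lean`) have
nodes `0, …, N - 1`; `val i` is the Boolean function of the `n` bits computed at the node `i`
(`V n = Fin n → ZMod 2`). A node is

* an input bit or a constant, or the negation of an earlier node,
* an AND or an OR gate of unbounded fan-in (the set `andOr`),
* a MOD `p` gate of unbounded fan-in: is the number of the true inputs congruent to `r` modulo `p`?
* a composite gate (the set `comp`): `g (∑ w_j)`, the sum over the true inputs `j`, with arbitrary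
  weights `w_j ∈ A` and an arbitrary function `g : A → Bool`.

`depth` grows along every wire into a MOD `p`, AND, OR or composite gate. The nodes in `low` do not
depend on MOD `p` gates, and the inputs of the composite gates are in `low`.

Idea of the proof. The composite gates are removed level by level. After a random restriction of half
of the coordinates all AND and OR gates below the lowest composite gates are shallow decision trees
(Hastad's switching lemma, from the starting files), hence polynomials of bounded degree, and the
lowest composite gates are functions of polynomials of bounded degree with coefficients in `A`. By a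
repeated application of the zero-sum theorem for finite abelian groups there are disjoint blocks of
free coordinates such that the composite gates are constant if the coordinates of each block are
equal. Blocks of almost equal sizes are selected, and the coordinates of the other half are fixed in
advance in several ways, so that on the resulting subcube, of dimension `n ^ ε`, the majority is the
majority of the parameters. At the end there are no composite gates and the method of Razborov and
Smolensky applies.
-/

set_option autoImplicit false

namespace Pool.Agent.Results.MP_3586ff_lc.FewCompositeGates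

open Finset Pool.Agent.W856.Corner Pool.Agent.L5helper12.MF Pool.Agent.L5helper12.MD

/-- The number of ones of a point of the cube (`V n = Fin n → ZMod 2`). -/
def ones {n : ℕ} (y : V n) : ℕ := (univ.filter fun i => y i = 1).card

/-- all depths are increased by one -/
lemma shift {p n : ℕ} {A : Type} [AddCommGroup A] (C : Mixed p n A) :
    ∃ C' : Mixed p n A, C'.andOr.card = C.andOr.card ∧ C'.comp.card = C.comp.card ∧
      (∀ d, (∀ i, C.depth i ≤ d) → ∀ i, C'.depth i ≤ d + 1) ∧ (∀ i, 0 < C'.depth i) ∧
      ∃ f : Fin C.N → Fin C'.N, ∀ i y, C'.val (f i) y = C.val i y := by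
  have rule' : ∀ i : Fin C.N,
      (i ∉ C.andOr ∧ ∃ l : Fin n, ∀ y, C.val i y = decide (y l = 1)) ∨
      (i ∉ C.andOr ∧ ∃ b : Bool, ∀ y, C.val i y = b) ∨
      (i ∈ C.comp ∧ i ∉ C.andOr ∧
        ∃ (J : Finset (Fin C.N)) (w : Fin C.N → A) (g : A → Bool),
        (∀ j ∈ J, j < i ∧ j ∈ C.low ∧ C.depth j + 1 < C.depth i + 1) ∧
        ∀ y, C.val i y = g (∑ j ∈ J.filter (fun j => C.val j y = true), w j)) ∨
      (i ∉ C.andOr ∧ ∃ j : Fin C.N, j < i ∧ C.depth j + 1 ≤ C.depth i + 1 ∧
        (i ∈ C.low → j ∈ C.low) ∧ ∀ y, C.val i y = !C.val j y) ∨
      (i ∉ C.andOr ∧ i ∉ C.low ∧ ∃ (J : Finset (Fin C.N)) (r : ZMod p),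
        (∀ j ∈ J, j < i ∧ C.depth j + 1 < C.depth i + 1) ∧
        ∀ y, C.val i y = decide (((J.filter fun j => C.val j y = true).card : ZMod p) = r)) ∨
      (i ∈ C.andOr ∧ ∃ J : Finset (Fin C.N),
        (∀ j ∈ J, j < i ∧ C.depth j + 1 < C.depth i + 1 ∧ (i ∈ C.low → j ∈ C.low)) ∧
        ((∀ y, C.val i y = decide (∀ j ∈ J, C.val j y = true)) ∨
          ∀ y, C.val i y = decide (∃ j ∈ J, C.val j y = true))) := by
    intro i
    have h := C.rule i
    simp only [Nat.add_lt_add_iff_right, Nat.add_le_add_iff_right]
    exact h
  exact ⟨⟨C.N, C.val, fun i => C.depth i + 1, C.andOr, C.comp, C.low, rule'⟩, rfl, rfl,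
    fun d hd i => Nat.succ_le_succ (hd i), fun i => Nat.succ_pos _, id, fun i y => rfl⟩

/-- **Theorem.** Let `p` be a prime. For all `d` and `c` there are `δ > 0` and `n₀` such that for
`n ≥ n₀` and every finite abelian group `A` with `m A = 0` no circuit of depth at most `d` with at
most `n ^ c` AND and OR gates, any number of NOT and MOD `p` gates, and composite gates over `A`,
whose number times `m log |A|` is at most `n ^ δ`, computes the majority of `n` bits. -/
theorem result (p : ℕ) (hp : p.Prime) (d c : ℕ) :
    ∃ δ : ℝ, 0 < δ ∧ ∃ n₀ : ℕ, ∀ n, n₀ ≤ n →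
      ∀ (A : Type) [AddCommGroup A] [Fintype A] (m : ℕ), 0 < m → (∀ a : A, m • a = 0) →
      ∀ C : Mixed p n A, (∀ i, C.depth i ≤ d) → C.andOr.card ≤ n ^ c →
        (C.comp.card : ℝ) * (m * Real.log (Fintype.card A)) ≤ (n : ℝ) ^ δ →
        ∀ i, ¬ ∀ y, C.val i y = true ↔ n ≤ 2 * ones y := by
  obtain ⟨δ, hδ, n0, h⟩ := main hp (d + 1) (d + 1) 0 (by omega) c
  refine ⟨δ, hδ, n0, fun n hn A _ _ m hm0 hm C hd hS hC i hmaj => ?_⟩
  obtain ⟨C', h1, h2, h3, h4, f, hf⟩ := shift C
  refine h n hn A m hm0 hm C' (h3 d hd) (fun i _ => h4 i) (by rw [h1]; exact hS) ?_ (f i) ?_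
  · rw [h2]
    refine le_trans (le_of_eq ?_) hC
    ring
  · intro y
    rw [hf]
    exact hmaj y

end Pool.Agent.Results.MP_3586ff_lc.FewCompositeGates
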