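import Pool.Agent.L5helper50.ACC.Final
import Pool.Agent.L5helper50.ACC.Vote

/-!
# Superlinear wires for MAJORITY and all non-periodic symmetric functions in ACC⁰[m]

The circuit model (`Circuit`, `Circuit.IsCount`, `Circuit.Sparse`, `Circuit.Determines`,
`Sparsely`, `ones`, `acc`) is in `Pool/Agent/L5helper50/ACC/Model.lean`.
-/

namespace Pool.Agent.Results.MP_3586ff_lc.LinearWires

open Finset Pool.Agent.L5helper50.ACC

/-- Circuits of any size and of constant depth with `c * n` wires whose gates are AND, OR, NOT,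
`MOD_m` or more general counting gates (or arbitrary gates of fan-in at most `k`), together with
`δ n` further counting gates with any wires, and any function of the values of these gates. -/
theorem result (m k c d P : ℕ) (hm : 2 ≤ m) (hP : 0 < P) :
    ∃ δ : ℝ, 0 < δ ∧ ∃ n₀ : ℕ, ∀ n, n₀ ≤ n →
      (∀ F : (Fin n → Bool) → Bool, Sparsely m k c d δ F →
        -- (1) the acceptance probability on the layers is almost `m`-periodic,
        (∀ l, n ≤ P * l → P * (l + m) + n ≤ P * n →
          |(acc F l : ℝ) / n.choose l - acc F (l + m) / n.choose (l + m)| ≤ 1 / P) ∧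
        -- (2) errors for symmetric functions which are not `m`-periodic,
        (∀ (f : ℕ → Bool) (l : ℕ), n ≤ P * l → P * (l + m) + n ≤ P * n → f l ≠ f (l + m) →
          (1 - 1 / P) * min (n.choose l : ℝ) (n.choose (l + m)) ≤
            (univ.filter fun x : Fin n → Bool => F x ≠ f (ones x)).card) ∧
        -- (3) errors for MAJORITY,
        P * n.choose (n / 2) ≤
          (univ.filter fun x : Fin n → Bool => F x ≠ decide (n ≤ 2 * ones x)).card ∧
        -- (4) residues of the number of ones,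
        (∀ q r r' : ℕ, 0 < q → q ≤ P → r ≡ r' [MOD Nat.gcd q m] →
          |((univ.filter fun x : Fin n → Bool => F x = true ∧ ones x ≡ r [MOD q]).card : ℝ)
            - (univ.filter fun x : Fin n → Bool => F x = true ∧ ones x ≡ r' [MOD q]).card|
            ≤ (2 : ℝ) ^ ((1 - δ) * (n : ℝ)))) ∧
      -- (5) threshold gates over such functions.
      (∀ (T : ℕ) (F : Fin T → (Fin n → Bool) → Bool) (w : Fin T → ℤ) (t : ℤ),
        (∀ j, Sparsely m k c d δ (F j)) →
        ((∑ j, |w j| : ℤ) : ℝ) ≤ (2 : ℝ) ^ (δ * (n : ℝ)) →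
        ∀ q : ℕ, 0 < q → q ≤ P → ¬ q ∣ m →
          ∃ x : Fin n → Bool, ¬ (q ∣ ones x ↔ t ≤ ∑ j, if F j x = true then w j else 0)) := by
  obtain ⟨δ₁, hδ₁, n₁, h1⟩ := layers hm k c d P hP
  obtain ⟨δ₂, hδ₂, n₂, h2⟩ := majority_error_strong hm k c d P
  obtain ⟨δ₃, hδ₃, n₃, h3⟩ := residues hm k c d P
  obtain ⟨δ₄, hδ₄, n₄, h4⟩ := vote hm k c d P
  set δ := min (min δ₁ δ₂) (min δ₃ δ₄) with hδ
  have e1 : δ ≤ δ₁ := (min_le_left _ _).trans (min_le_left _ _)
  have e2 : δ ≤ δ₂ := (min_le_left _ _).trans (min_le_right _ _)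
  have e3 : δ ≤ δ₃ := (min_le_right _ _).trans (min_le_left _ _)
  have e4 : δ ≤ δ₄ := (min_le_right _ _).trans (min_le_right _ _)
  refine ⟨δ, lt_min (lt_min hδ₁ hδ₂) (lt_min hδ₃ hδ₄), n₁ + n₂ + n₃ + n₄, ?_⟩
  intro n hn
  have hn0 : (0 : ℝ) ≤ n := Nat.cast_nonneg n
  refine ⟨?_, ?_⟩
  · intro F hF
    have hlay : ∀ l, n ≤ P * l → P * (l + m) + n ≤ P * n →
        |(acc F l : ℝ) / n.choose l - acc F (l + m) / n.choose (l + m)| ≤ 1 / P := by
      obtain ⟨s, C, U, o, c1, c2, c3⟩ := hF.mono e1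
      exact h1 n s C U o (by omega) c1 c2 F c3
    refine ⟨hlay, ?_, ?_, ?_⟩
    · intro f l hl1 hl2 hf
      have hln : l + m ≤ n := by
        by_contra h
        push Not at h
        have := Nat.mul_le_mul_left P (Nat.le_of_lt h)
        have h5 : P * n < P * (l + m) := Nat.mul_lt_mul_of_pos_left h hP
        omega
      exact symmetric_errors hP hln (hlay l hl1 hl2) hf
    · obtain ⟨s, C, U, o, c1, c2, c3⟩ := hF.mono e2
      exact h2 n s C U o (by omega) c1 c2 F c3
    · intro q r r' hq hqP hrr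
      obtain ⟨s, C, U, o, c1, c2, c3⟩ := hF.mono e3
      refine (h3 n s C U o (by omega) c1 c2 F c3 q r r' hq hqP hrr).trans ?_
      apply Real.rpow_le_rpow_of_exponent_le (by norm_num)
      exact mul_le_mul_of_nonneg_right (by linarith) hn0
  · intro T F w t hF hw q hq hqP hqm
    refine h4 n (by omega) T F w t (fun j => (hF j).mono e4) (hw.trans ?_) q hq hqP hqm
    apply Real.rpow_le_rpow_of_exponent_le (by norm_num)
    exact mul_le_mul_of_nonneg_right e4 hn0

end Pool.Agent.Results.MP_3586ff_lc.LinearWires
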