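import Pool.Agent.L5helper32.OA.Asym
import Pool.Agent.L5helper32.OA.Sharp

set_option autoImplicit false

/-!
# Majority and circuits over the snapshots of automata and the factors of programs over monoids

`MOD m` gates and, more generally, iterated products over a finite monoid `M` (Barrington) may be
used at the bottom of a circuit with `MOD p` gates in any number, and the rest of the circuit may
depend on them in an arbitrary way, if the bits are read in order by one automaton, or if the
program over `M` which computes all these products reads every bit less than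
`c log n / log log n` times on average: such circuits of subexponential size and bounded depth do
not compute MAJORITY. The bounds for the number of states and for the size of `M` are best possible
up to powers of `log n`. By Barrington's theorem (polynomial length, `M = S₅`) restrictions of this
kind are necessary.
-/

namespace Pool.Agent.Results.MP_3586ff_lc.ProgramsAndAutomata

open Finset Pool.Agent.L5helper32.OA

theorem result (p : ℕ) (hp : p.Prime) :
    -- (1) snapshots of an automaton with the set `Q` of states
    (∀ (n d k : ℕ) (s : ℝ), 2 ≤ n → 1 ≤ s → (k : ℝ) ≤ s → ∀ (Q : Type) [Fintype Q]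
      (A : Automaton n Q) (C : Circ p n (A.Free k)), C.ComputesMaj d (2 ^ s) →
      (n : ℝ) < 1000 * Fintype.card Q * ((4 * p) ^ (4 * d) * s ^ (4 * d + 4)) * Real.log n) ∧
    -- (2) factors of a program over `M` which reads every bit at most `r` times or has length at
    -- most `r n / 2`
    (∀ (n d k r : ℕ) (s : ℝ), 2 ≤ n → 1 ≤ s → (k : ℝ) ≤ s → 1 ≤ r →
      ∀ (M : Type) [Monoid M] [Fintype M] (P : Program n M),
      ((∀ i, P.reads i ≤ r) ∨ 2 * P.len ≤ r * n) →
      ∀ C : Circ p n (P.Free k), C.ComputesMaj d (2 ^ s) →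
      (n : ℝ) < (25000 * r ^ 2 * Fintype.card M * ((4 * p) ^ (4 * d) * s ^ (4 * d + 4)) *
        Real.log n) ^ r) ∧
    -- (3) programs of length `o(n log n / log log n)`
    (∀ d c : ℕ, ∃ (δ : ℝ) (n₀ : ℕ), 0 < δ ∧ ∀ n : ℕ, n₀ ≤ n →
      ∀ (M : Type) [Monoid M] [Fintype M] (P : Program n M) (k : ℕ) (C : Circ p n (P.Free k)),
      (Fintype.card M : ℝ) ≤ Real.log n ^ c → (k : ℝ) ≤ Real.log n ^ c →
      (P.len : ℝ) ≤ δ * (n * Real.log n / Real.log (Real.log n)) →
      ¬ C.ComputesMaj d ((n : ℝ) ^ c)) ∧
    -- (4) `n + 1` states suffice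
    (∀ n : ℕ, ∃ A : Automaton n (Fin (n + 1)), A.Free 1 fun x => decide (n ≤ 2 * ones x)) ∧
    -- (5) a monoid with `q_1 + ... + q_r + 2` elements suffices
    (∀ n r : ℕ, 1 ≤ n → 1 ≤ r → ∀ q : Fin r → ℕ, (Pairwise fun i j => (q i).Coprime (q j)) →
      n < ∏ i, q i → ∃ (M : Type) (_ : Monoid M) (_ : Fintype M) (P : Program n M),
        Fintype.card M ≤ (∑ i, q i) + 2 ∧ (∀ i, P.reads i = r) ∧
        P.Free (r - 1) fun x => decide (n ≤ 2 * ones x)) :=
  ⟨fun _ _ _ _ hn hs hk _ _ A C hC => part1 hp hn hs hk A C hC,
    fun _ _ _ _ _ hn hs hk hr _ _ _ P hP C hC => part2 hp hn hs hk hr P hP C hC,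
    fun d c => part3 hp d c,
    sharp1,
    fun n r hn hr q hq hprod => sharp2 n r hn hr q hq hprod⟩

end Pool.Agent.Results.MP_3586ff_lc.ProgramsAndAutomata
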